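import Pool.Agent.Lib.MP_6fdd0d_al.Sasaki

/-!
# The orthomodular lattice of closed subspaces of a real Hilbert space
-/

namespace Pool.Agent.Lib.MP_6fdd0d_al

open scoped InnerProductSpace

set_option linter.unusedSectionVars false

variable (E : Type) [NormedAddCommGroup E] [InnerProductSpace ℝ E]

/-- Subspaces that equal their double orthogonal complement. -/
def Cl : Type := {M : Submodule ℝ E // Mᗮᗮ = M}

namespace Cl

variable {E}

theorem ooo (M : Submodule ℝ E) : Mᗮᗮᗮ = Mᗮ :=
  le_antisymm (Submodule.orthogonal_le (Submodule.le_orthogonal_orthogonal M))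
    (Submodule.le_orthogonal_orthogonal Mᗮ)

instance : PartialOrder (Cl E) := inferInstanceAs (PartialOrder {M : Submodule ℝ E // Mᗮᗮ = M})

theorem le_def {M N : Cl E} : M ≤ N ↔ M.1 ≤ N.1 := Iff.rfl

/-- infimum -/
noncomputable def inf (M N : Cl E) : Cl E := ⟨M.1 ⊓ N.1, by
  apply le_antisymm _ (Submodule.le_orthogonal_orthogonal _)
  apply le_inf
  · conv_rhs => rw [← M.2]
    exact Submodule.orthogonal_le (Submodule.orthogonal_le inf_le_left)
  · conv_rhs => rw [← N.2]
    exact Submodule.orthogonal_le (Submodule.orthogonal_le inf_le_right)⟩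

/-- supremum -/
noncomputable def sup (M N : Cl E) : Cl E := ⟨(M.1 ⊔ N.1)ᗮᗮ, ooo _⟩

noncomputable instance : Lattice (Cl E) where
  inf := inf
  sup := sup
  inf_le_left M N := (inf_le_left : M.1 ⊓ N.1 ≤ M.1)
  inf_le_right M N := (inf_le_right : M.1 ⊓ N.1 ≤ N.1)
  le_inf M N P h1 h2 := (le_inf h1 h2 : M.1 ≤ N.1 ⊓ P.1)
  le_sup_left M N := (le_sup_left : M.1 ≤ M.1 ⊔ N.1).trans (Submodule.le_orthogonal_orthogonal _)
  le_sup_right M N := (le_sup_right : N.1 ≤ M.1 ⊔ N.1).trans (Submodule.le_orthogonal_orthogonal _)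
  sup_le M N P h1 h2 := by
    have h : M.1 ⊔ N.1 ≤ P.1 := sup_le h1 h2
    have := Submodule.orthogonal_le (Submodule.orthogonal_le h)
    rwa [P.2] at this

noncomputable instance : BoundedOrder (Cl E) where
  top := ⟨⊤, by simp⟩
  bot := ⟨⊥, by simp⟩
  le_top M := (le_top : M.1 ≤ ⊤)
  bot_le M := (bot_le : ⊥ ≤ M.1)

noncomputable instance : Compl (Cl E) := ⟨fun M => ⟨M.1ᗮ, ooo _⟩⟩

theorem coe_inf (M N : Cl E) : (M ⊓ N).1 = M.1 ⊓ N.1 := rfl
theorem coe_sup (M N : Cl E) : (M ⊔ N).1 = (M.1 ⊔ N.1)ᗮᗮ := rfl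
theorem coe_compl (M : Cl E) : (Mᶜ).1 = M.1ᗮ := rfl
theorem coe_top : (⊤ : Cl E).1 = ⊤ := rfl
theorem coe_bot : (⊥ : Cl E).1 = ⊥ := rfl

theorem ext {M N : Cl E} (h : M.1 = N.1) : M = N := Subtype.ext h

noncomputable instance [CompleteSpace E] : OrthomodularLattice (Cl E) where
  compl_compl' M := ext M.2
  compl_antitone' M N h := Submodule.orthogonal_le h
  inf_compl' M := ext (by
    rw [coe_inf, coe_compl, coe_bot]
    exact Submodule.inf_orthogonal_eq_bot _)
  sup_compl' M := ext (by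
    rw [coe_sup, coe_compl, coe_top, ← Submodule.inf_orthogonal,
      Submodule.inf_orthogonal_eq_bot, Submodule.bot_orthogonal_eq_top])
  orthomodular' M N h := ext (by
    have hc : IsClosed (M.1 : Set E) := by
      rw [← M.2]
      exact Submodule.isClosed_orthogonal _
    have : CompleteSpace M.1 := hc.completeSpace_coe
    have h1 : M.1 ⊔ M.1ᗮ ⊓ N.1 = N.1 := Submodule.sup_orthogonal_inf_of_hasOrthogonalProjection h
    rw [coe_sup, coe_inf, coe_compl, inf_comm N.1, h1, N.2])

variable [CompleteSpace E]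

/-- the line spanned by a vector -/
noncomputable def line (v : E) : Cl E := ⟨Submodule.span ℝ {v}, Submodule.orthogonal_orthogonal _⟩

theorem line_smul {c : ℝ} (hc : c ≠ 0) (v : E) : line (c • v) = line v :=
  ext (Submodule.span_singleton_smul_eq (IsUnit.mk0 c hc) v)

/-- The fixed space of an isometric involution `U`. -/
noncomputable def fix (U : E →ₗ[ℝ] E) : Submodule ℝ E := LinearMap.ker (U - LinearMap.id)

theorem mem_fix {U : E →ₗ[ℝ] E} {v : E} : v ∈ fix U ↔ U v = v := by
  unfold fix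
  rw [LinearMap.mem_ker, LinearMap.sub_apply, LinearMap.id_apply, sub_eq_zero]

/-- An isometric involution -/
structure IsInv (U : E →ₗ[ℝ] E) : Prop where
  sq : ∀ v, U (U v) = v
  inner : ∀ v w, ⟪U v, w⟫_ℝ = ⟪v, U w⟫_ℝ

theorem IsInv.neg {U : E →ₗ[ℝ] E} (h : IsInv U) : IsInv (-U) :=
  ⟨fun v => by simp [h.sq], fun v w => by simp [h.inner]⟩

theorem IsInv.half {U : E →ₗ[ℝ] E} (h : IsInv U) (v : E) : (1 / 2 : ℝ) • (v + U v) ∈ fix U := by
  rw [mem_fix, map_smul, map_add, h.sq, add_comm]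

theorem IsInv.fix_orthogonal {U : E →ₗ[ℝ] E} (h : IsInv U) : (fix U)ᗮ = fix (-U) := by
  ext w
  rw [Submodule.mem_orthogonal]
  constructor
  · intro hw
    rw [mem_fix]
    have h1 : U w + w = 0 := by
      have h2 : ∀ v : E, ⟪v, U w + w⟫_ℝ = 0 := by
        intro v
        have h3 := hw _ (h.half v)
        rw [inner_smul_left, inner_add_left, h.inner] at h3
        rw [inner_add_right]
        simp at h3
        linarith
      exact inner_self_eq_zero.mp (h2 _)
    rw [LinearMap.neg_apply]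
    exact (eq_neg_of_add_eq_zero_right h1).symm
  · intro hw v hv
    rw [mem_fix] at hw hv
    have h1 := h.inner v w
    rw [hv] at h1
    have h2 : U w = - w := by
      rw [LinearMap.neg_apply] at hw
      rw [← hw, neg_neg]
      rw [hw]
    rw [h2, inner_neg_right] at h1
    linarith

/-- The fixed space as an element of the lattice. -/
noncomputable def fixC (U : E →ₗ[ℝ] E) (h : IsInv U) : Cl E := ⟨fix U, by
  rw [h.fix_orthogonal, h.neg.fix_orthogonal, neg_neg]⟩

theorem fixC_compl (U : E →ₗ[ℝ] E) (h : IsInv U) : (fixC U h)ᶜ = fixC (-U) h.neg :=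
  ext h.fix_orthogonal

open OrthomodularLattice in
theorem fixC_comm (U V : E →ₗ[ℝ] E) (hU : IsInv U) (hV : IsInv V) (h : ∀ v, U (V v) = V (U v)) :
    Comm (fixC U hU) (fixC V hV) := by
  unfold Comm
  apply ext
  rw [fixC_compl, coe_sup, coe_inf, coe_inf]
  apply le_antisymm
  · intro v hv
    apply Submodule.le_orthogonal_orthogonal
    have hv' : U v = v := mem_fix.mp hv
    have e : v = (1 / 2 : ℝ) • (v + V v) + (1 / 2 : ℝ) • (v + (-V) v) := by
      rw [LinearMap.neg_apply]
      module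
    rw [e]
    refine Submodule.add_mem_sup ⟨?_, hV.half v⟩ ⟨?_, hV.neg.half v⟩
    · refine mem_fix.mpr ?_
      rw [map_smul, map_add, h, hv']
    · refine mem_fix.mpr ?_
      rw [map_smul, map_add, LinearMap.neg_apply, map_neg, h, hv']
  · have h1 : (fix U ⊓ fix V) ⊔ (fix U ⊓ fix (-V)) ≤ fix U := sup_le inf_le_left inf_le_left
    have h2 := Submodule.orthogonal_le (Submodule.orthogonal_le h1)
    have h3 : (fix U)ᗮᗮ = fix U := (fixC U hU).2
    rw [h3] at h2
    exact h2

open OrthomodularLattice in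
theorem sas_line (U : E →ₗ[ℝ] E) (hU : IsInv U) (v : E) :
    sas (fixC U hU) (line v) = line (v + U v) := by
  have hc : (1 / 2 : ℝ) ≠ 0 := by norm_num
  rw [← line_smul hc (v + U v)]
  unfold sas
  apply ext
  rw [coe_inf, coe_sup, coe_compl]
  apply le_antisymm
  · rintro u ⟨hu1, hu2⟩
    rw [← (line ((1 / 2 : ℝ) • (v + U v))).2]
    rw [Submodule.mem_orthogonal]
    intro w hw
    have hw' : ⟪(1 / 2 : ℝ) • (v + U v), w⟫_ℝ = 0 :=
      Submodule.mem_orthogonal_singleton_iff_inner_right.mp hw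
    have hu3 : U u = u := mem_fix.mp hu2
    have h1 : ⟪w, u⟫_ℝ = ⟪(1 / 2 : ℝ) • (w + U w), u⟫_ℝ := by
      rw [inner_smul_left, inner_add_left, hU.inner, hu3]
      simp
      ring
    rw [h1]
    refine (Submodule.mem_orthogonal _ _).mp hu1 _ ?_
    rw [← Submodule.inf_orthogonal]
    refine ⟨?_, ?_⟩
    · refine Submodule.mem_orthogonal_singleton_iff_inner_right.mpr ?_
      rw [inner_smul_left, inner_add_left, hU.inner] at hw'
      rw [inner_smul_right, inner_add_right]
      exact hw'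
    · have : (fixC U hU).1ᗮᗮ = fix U := (fixC U hU).2
      rw [this]
      exact hU.half w
  · have : (line ((1 / 2 : ℝ) • (v + U v))).1 = Submodule.span ℝ {(1 / 2 : ℝ) • (v + U v)} := rfl
    rw [this, Submodule.span_singleton_le_iff_mem]
    refine ⟨?_, hU.half v⟩
    apply Submodule.le_orthogonal_orthogonal
    have e : (1 / 2 : ℝ) • (v + U v) = v + (-(1 / 2 : ℝ) • (v + (-U) v)) := by
      rw [LinearMap.neg_apply]
      module
    rw [e]
    refine Submodule.add_mem_sup (Submodule.mem_span_singleton_self v) ?_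
    have h2 : (fixC U hU).1ᗮ = fix (-U) := hU.fix_orthogonal
    rw [h2, neg_smul]
    exact Submodule.neg_mem _ (hU.neg.half v)

end Cl

end Pool.Agent.Lib.MP_6fdd0d_al
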