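import Mathlib

/-!
# Finitely presented orthomodular lattices and their word problem: definitions
-/

namespace Pool.Agent.Lib.MP_6fdd0d_al

/-- Orthomodular lattices: bounded lattices with an order-reversing involution `ᶜ` that is an
orthocomplementation, satisfying the orthomodular law. -/
class OrthomodularLattice (L : Type*) extends Lattice L, BoundedOrder L, Compl L where
  compl_compl' : ∀ a : L, aᶜᶜ = a
  compl_antitone' : ∀ a b : L, a ≤ b → bᶜ ≤ aᶜ
  inf_compl' : ∀ a : L, a ⊓ aᶜ = ⊥
  sup_compl' : ∀ a : L, a ⊔ aᶜ = ⊤
  orthomodular' : ∀ a b : L, a ≤ b → b = a ⊔ (b ⊓ aᶜ)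

/-- Terms in the variables `x_0, …, x_{n-1}` over the signature `(∨, ∧, ', 0, 1)`. -/
inductive Term (n : ℕ) : Type
  | var : Fin n → Term n
  | zero : Term n
  | one : Term n
  | compl : Term n → Term n
  | inf : Term n → Term n → Term n
  | sup : Term n → Term n → Term n

/-- The value of a term in an orthomodular lattice. -/
def Term.eval {n : ℕ} {L : Type*} [OrthomodularLattice L] (v : Fin n → L) : Term n → L
  | .var i => v i
  | .zero => ⊥
  | .one => ⊤
  | .compl t => (t.eval v)ᶜ
  | .inf s t => s.eval v ⊓ t.eval v
  | .sup s t => s.eval v ⊔ t.eval v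

/-- `Eqv R` is equality in the orthomodular lattice presented by
`⟨x_0, …, x_{n-1} | s = t for (s, t) ∈ R⟩`: the smallest congruence on the algebra of terms that
contains all identities of orthomodular lattices (so that one works in the free orthomodular
lattice) and all pairs in `R`. -/
inductive Eqv {n : ℕ} (R : List (Term n × Term n)) : Term n → Term n → Prop
  | rel {s t : Term n} : (s, t) ∈ R → Eqv R s t
  | ident {s t : Term n} :
      (∀ (L : Type) [OrthomodularLattice L] (v : Fin n → L), s.eval v = t.eval v) → Eqv R s t
  | symm {s t : Term n} : Eqv R s t → Eqv R t s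
  | trans {s t u : Term n} : Eqv R s t → Eqv R t u → Eqv R s u
  | compl {s t : Term n} : Eqv R s t → Eqv R s.compl t.compl
  | inf {s s' t t' : Term n} : Eqv R s s' → Eqv R t t' → Eqv R (s.inf t) (s'.inf t')
  | sup {s s' t t' : Term n} : Eqv R s s' → Eqv R t t' → Eqv R (s.sup t) (s'.sup t')

/-- The word (over an alphabet with `n + 5` letters) that represents a term in Polish notation.
The letters `0, …, n-1` are the variables, followed by the letters for `0`, `1`, `'`, `∧`, `∨`. -/
def Term.word {n : ℕ} : Term n → List (Fin (n + 5))
  | .var i => [i.castAdd 5]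
  | .zero => [Fin.natAdd n 0]
  | .one => [Fin.natAdd n 1]
  | .compl t => Fin.natAdd n 2 :: t.word
  | .inf s t => Fin.natAdd n 3 :: (s.word ++ t.word)
  | .sup s t => Fin.natAdd n 4 :: (s.word ++ t.word)

/-- The word problem of the orthomodular lattice presented by `R` is solvable: some computable
function decides, given (the words of) two terms, whether they are equal in that lattice. -/
def WordProblemSolvable {n : ℕ} (R : List (Term n × Term n)) : Prop :=
  ∃ f : List (Fin (n + 5)) × List (Fin (n + 5)) → Bool, Computable f ∧
    ∀ s t : Term n, f (s.word, t.word) = true ↔ Eqv R s t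

theorem word_append_inj {n : ℕ} (s t : Term n) (p q : List (Fin (n + 5)))
    (h : s.word ++ p = t.word ++ q) : s = t ∧ p = q := by
  induction s generalizing t p q with
  | var i =>
    cases t with
    | var j => 
      simp only [Term.word, List.singleton_append, List.cons.injEq] at h
      exact ⟨by rw [Fin.castAdd_inj] at h; rw [h.1], h.2⟩
    | zero => exact absurd h (by simp [Term.word, Fin.ext_iff]; omega)
    | one => exact absurd h (by simp [Term.word, Fin.ext_iff]; omega)
    | compl t => exact absurd h (by simp [Term.word, Fin.ext_iff]; omega)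
    | inf t t' => exact absurd h (by simp [Term.word, Fin.ext_iff]; omega)
    | sup t t' => exact absurd h (by simp [Term.word, Fin.ext_iff]; omega)
  | zero => 
    cases t with
    | var j => exact absurd h (by simp [Term.word, Fin.ext_iff]; omega)
    | zero => exact ⟨rfl, by simpa [Term.word] using h⟩
    | one => exact absurd h (by simp [Term.word, Fin.ext_iff])
    | compl t => exact absurd h (by simp [Term.word, Fin.ext_iff])
    | inf t t' => exact absurd h (by simp [Term.word, Fin.ext_iff])
    | sup t t' => exact absurd h (by simp [Term.word, Fin.ext_iff])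
  | one => 
    cases t with
    | var j => exact absurd h (by simp [Term.word, Fin.ext_iff]; omega)
    | zero => exact absurd h (by simp [Term.word, Fin.ext_iff])
    | one => exact ⟨rfl, by simpa [Term.word] using h⟩
    | compl t => exact absurd h (by simp [Term.word, Fin.ext_iff])
    | inf t t' => exact absurd h (by simp [Term.word, Fin.ext_iff])
    | sup t t' => exact absurd h (by simp [Term.word, Fin.ext_iff])
  | compl s ih => 
    cases t with
    | var j => exact absurd h (by simp [Term.word, Fin.ext_iff]; omega)
    | zero => exact absurd h (by simp [Term.word, Fin.ext_iff])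
    | one => exact absurd h (by simp [Term.word, Fin.ext_iff])
    | compl t => 
      have h' : s.word ++ p = t.word ++ q := by simpa [Term.word] using h
      obtain ⟨rfl, h2⟩ := ih t p q h'
      exact ⟨rfl, h2⟩
    | inf t t' => exact absurd h (by simp [Term.word, Fin.ext_iff])
    | sup t t' => exact absurd h (by simp [Term.word, Fin.ext_iff])
  | inf s s' ih ih' => 
    cases t with
    | var j => exact absurd h (by simp [Term.word, Fin.ext_iff]; omega)
    | zero => exact absurd h (by simp [Term.word, Fin.ext_iff])
    | one => exact absurd h (by simp [Term.word, Fin.ext_iff])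
    | compl t => exact absurd h (by simp [Term.word, Fin.ext_iff])
    | inf t t' => 
      have h' : s.word ++ (s'.word ++ p) = t.word ++ (t'.word ++ q) := by
        simpa [Term.word] using h
      obtain ⟨rfl, h2⟩ := ih t _ _ h'
      obtain ⟨rfl, h3⟩ := ih' t' _ _ h2
      exact ⟨rfl, h3⟩
    | sup t t' => exact absurd h (by simp [Term.word, Fin.ext_iff])
  | sup s s' ih ih' => 
    cases t with
    | var j => exact absurd h (by simp [Term.word, Fin.ext_iff]; omega)
    | zero => exact absurd h (by simp [Term.word, Fin.ext_iff])
    | one => exact absurd h (by simp [Term.word, Fin.ext_iff])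
    | compl t => exact absurd h (by simp [Term.word, Fin.ext_iff])
    | inf t t' => exact absurd h (by simp [Term.word, Fin.ext_iff])
    | sup t t' => 
      have h' : s.word ++ (s'.word ++ p) = t.word ++ (t'.word ++ q) := by
        simpa [Term.word] using h
      obtain ⟨rfl, h2⟩ := ih t _ _ h'
      obtain ⟨rfl, h3⟩ := ih' t' _ _ h2
      exact ⟨rfl, h3⟩

/-- Different terms have different words. -/
theorem word_injective {n : ℕ} : Function.Injective (Term.word (n := n)) := by
  intro s t h
  exact (word_append_inj s t [] [] (by rw [h])).1

end Pool.Agent.Lib.MP_6fdd0d_al
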