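import Pool.Agent.Lib.MP_6fdd0d_al.Pres

/-!
# The presentation simulating a Turing machine
-/

namespace Pool.Agent.Lib.MP_6fdd0d_al

open Turing OrthomodularLattice

set_option linter.unusedSectionVars false

/-- names of the constants attached to a stack -/
inductive Cst (A : Type) : Type
  | e | d | g (a : A)
  deriving Fintype

/-- names of the state constants -/
inductive St (Γ Λ : Type) : Type
  | run (q : Λ) (h : Γ)
  | rd (k : Bool) (q : Λ)
  | halt
  deriving Fintype

/-- names of generators -/
inductive Gen (Γ Λ : Type) : Type
  | cst (k : Bool) (c : Cst (Option Γ))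
  | st (s : St Γ Λ)
  deriving Fintype

/-- names of relations -/
inductive Rl (Γ Λ : Type) : Type
  | comm (c d : Cst (Option Γ))
  | run (q : Λ) (h : Γ)
  | rd (k : Bool) (a : Option Γ) (q : Λ)
  | halt (k : Bool) (a : Γ)
  deriving Fintype

variable {Γ Λ : Type} [Inhabited Γ] [Inhabited Λ]

section terms

variable {n : ℕ} (ι : Gen Γ Λ → Fin n)

/-- Sasaki projection as a term -/
def sasT (c t : Term n) : Term n := (t.sup c.compl).inf c

/-- generator as a term -/
def gT (x : Gen Γ Λ) : Term n := .var (ι x)

/-- the term that puts a letter at the bottom of a stack -/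
def pushT (k : Bool) (a : Option Γ) (t : Term n) : Term n :=
  sasT (gT ι (.cst k .e)) (sasT (gT ι (.cst k .d))
    (sasT (gT ι (.cst k .e)).compl (sasT (gT ι (.cst k (.g a))) t)))

/-- The relations of the presentation. -/
def Rl.pair (M : TM0.Machine Γ Λ) : Rl Γ Λ → Term n × Term n
  | .comm c d => (gT ι (.cst false c),
      ((gT ι (.cst false c)).inf (gT ι (.cst true d))).sup
        ((gT ι (.cst false c)).inf (gT ι (.cst true d)).compl))
  | .run q h => (gT ι (.st (.run q h)), match M q h with
    | none => gT ι (.st .halt)
    | some (q', .write a) => gT ι (.st (.run q' a))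
    | some (q', .move .left) => pushT ι true (some h) (gT ι (.st (.rd false q')))
    | some (q', .move .right) => pushT ι false (some h) (gT ι (.st (.rd true q'))))
  | .rd k (some a) q => (pushT ι k (some a) (gT ι (.st (.rd k q))), gT ι (.st (.run q a)))
  | .rd k none q => (pushT ι k none (gT ι (.st (.rd k q))),
      pushT ι k none (gT ι (.st (.run q default))))
  | .halt k a => (pushT ι k (some a) (gT ι (.st .halt)), gT ι (.st .halt))

/-- word of letters pushed -/
def pushesT (k : Bool) (l : List (Option Γ)) (t : Term n) : Term n :=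
  l.foldl (fun t a => pushT ι k a t) t

end terms

section sem

variable {L : Type} [OrthomodularLattice L] (w : Gen Γ Λ → L)

/-- the operation that puts a letter at the bottom of a stack -/
def push (k : Bool) (a : Option Γ) (x : L) : L :=
  sas (w (.cst k .e)) (sas (w (.cst k .d))
    (sas (w (.cst k .e))ᶜ (sas (w (.cst k (.g a))) x)))

/-- word of letters pushed -/
def pushes (k : Bool) (l : List (Option Γ)) (x : L) : L :=
  l.foldl (fun t a => push w k a t) x

theorem eval_pushT {n : ℕ} (ι : Gen Γ Λ → Fin n) (v : Fin n → L) (k : Bool) (a : Option Γ)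
    (t : Term n) : (pushT ι k a t).eval v = push (v ∘ ι) k a (t.eval v) := rfl

theorem eval_pushesT {n : ℕ} (ι : Gen Γ Λ → Fin n) (v : Fin n → L) (k : Bool)
    (l : List (Option Γ)) (t : Term n) :
    (pushesT ι k l t).eval v = pushes (v ∘ ι) k l (t.eval v) := by
  induction l generalizing t with
  | nil => rfl
  | cons a l ih =>
    simp only [pushesT, pushes, List.foldl_cons] at ih ⊢
    rw [ih, eval_pushT]

/-- The relations, semantically. -/
structure Sat (M : TM0.Machine Γ Λ) (w : Gen Γ Λ → L) : Prop where
  comm : ∀ c d, Comm (w (.cst false c)) (w (.cst true d))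
  runN : ∀ q h, M q h = none → w (.st (.run q h)) = w (.st .halt)
  runW : ∀ q h q' a, M q h = some (q', .write a) → w (.st (.run q h)) = w (.st (.run q' a))
  runL : ∀ q h q', M q h = some (q', .move .left) →
    w (.st (.run q h)) = push w true (some h) (w (.st (.rd false q')))
  runR : ∀ q h q', M q h = some (q', .move .right) →
    w (.st (.run q h)) = push w false (some h) (w (.st (.rd true q')))
  rdS : ∀ k a q, push w k (some a) (w (.st (.rd k q))) = w (.st (.run q a))
  rdN : ∀ k q, push w k none (w (.st (.rd k q))) = push w k none (w (.st (.run q default)))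
  hlt : ∀ k a, push w k (some a) (w (.st .halt)) = w (.st .halt)

theorem sat_iff {n : ℕ} (ι : Gen Γ Λ → Fin n) (v : Fin n → L) (M : TM0.Machine Γ Λ) :
    (∀ r : Rl Γ Λ, (r.pair ι M).1.eval v = (r.pair ι M).2.eval v) ↔ Sat M (v ∘ ι) := by
  constructor
  · intro h
    refine ⟨fun c d => h (.comm c d), fun q s hq => ?_, fun q s q' a hq => ?_,
      fun q s q' hq => ?_, fun q s q' hq => ?_, fun k a q => h (.rd k (some a) q),
      fun k q => h (.rd k none q), fun k a => h (.halt k a)⟩
    all_goals
      have := h (.run q s)
      simp only [Rl.pair, hq] at this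
      exact this
  · intro h r
    cases r with
    | comm c d => exact h.comm c d
    | run q s =>
      rcases hq : M q s with _ | ⟨q', _ | a⟩
      · simp only [Rl.pair, hq]
        exact h.runN q s hq
      · rename_i dir
        cases dir
        · simp only [Rl.pair, hq]
          exact h.runL q s q' hq
        · simp only [Rl.pair, hq]
          exact h.runR q s q' hq
      · simp only [Rl.pair, hq]
        exact h.runW q s q' a hq
    | rd k a q =>
      cases a with
      | none => exact h.rdN k q
      | some a => exact h.rdS k a q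
    | halt k a => exact h.hlt k a

variable {w}

theorem push_comm {M : TM0.Machine Γ Λ} (hw : Sat M w) (a b : Option Γ) (x : L) :
    push w false a (push w true b x) = push w true b (push w false a x) := by
  have hc : ∀ c ∈ ({w (.cst false .e), w (.cst false .d), (w (.cst false .e))ᶜ,
      w (.cst false (.g a))} : Set L), ∀ d ∈ ({w (.cst true .e), w (.cst true .d),
      (w (.cst true .e))ᶜ, w (.cst true (.g b))} : Set L), Comm c d := by
    rintro c (rfl | rfl | rfl | rfl) d (rfl | rfl | rfl | rfl)
    all_goals first
      | exact hw.comm _ _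
      | exact (hw.comm _ _).compl_left
      | exact (hw.comm _ _).compl_right
      | exact (hw.comm _ _).compl_left.compl_right
  have key : ∀ d ∈ ({w (.cst true .e), w (.cst true .d),
      (w (.cst true .e))ᶜ, w (.cst true (.g b))} : Set L), ∀ y : L,
      push w false a (sas d y) = sas d (push w false a y) := by
    intro d hd y
    unfold push
    rw [sas_comm (hc _ (by simp) d hd), sas_comm (hc _ (by simp) d hd),
      sas_comm (hc _ (by simp) d hd), sas_comm (hc _ (by simp) d hd)]
  conv_lhs => rw [push.eq_def w true b x]
  rw [key _ (by simp), key _ (by simp), key _ (by simp), key _ (by simp)]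
  rfl

theorem pushes_push {M : TM0.Machine Γ Λ} (hw : Sat M w) (a : Option Γ) (l : List (Option Γ))
    (x : L) : pushes w true l (push w false a x) = push w false a (pushes w true l x) := by
  induction l generalizing x with
  | nil => rfl
  | cons b l ih =>
    simp only [pushes, List.foldl_cons] at ih ⊢
    rw [← push_comm hw, ih]

/-- A configuration -/
def C (w : Gen Γ Λ → L) (l r : List Γ) (x : L) : L :=
  pushes w false (l.map some ++ [none]) (pushes w true (r.map some ++ [none]) x)

theorem C_consR (a : Γ) (l r : List Γ) (x : L) :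
    C w l (a :: r) x = C w l r (push w true (some a) x) := rfl

theorem C_consL {M : TM0.Machine Γ Λ} (hw : Sat M w) (a : Γ) (l r : List Γ) (x : L) :
    C w (a :: l) r x = C w l r (push w false (some a) x) := by
  unfold C
  rw [pushes_push hw]
  rfl

theorem C_nilR (l : List Γ) {x y : L} (h : push w true none x = push w true none y) :
    C w l [] x = C w l [] y := by
  unfold C
  have e : ∀ z : L, pushes w true (([] : List Γ).map some ++ [none]) z = push w true none z :=
    fun _ => rfl
  rw [e, e, h]

theorem C_nilL {M : TM0.Machine Γ Λ} (hw : Sat M w) (r : List Γ) {x y : L}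
    (h : push w false none x = push w false none y) : C w [] r x = C w [] r y := by
  have e : ∀ z : L, C w [] r z = pushes w true (r.map some ++ [none]) (push w false none z) := by
    intro z
    rw [pushes_push hw]
    rfl
  rw [e, e, h]

theorem C_halt {M : TM0.Machine Γ Λ} (hw : Sat M w) (l r : List Γ) :
    C w l r (w (.st .halt)) = C w [] [] (w (.st .halt)) := by
  induction r with
  | cons a r ih => rw [C_consR, hw.hlt, ih]
  | nil =>
    induction l with
    | cons a l ih => rw [C_consL hw, hw.hlt, ih]
    | nil => rfl

/-- reading the top of the right stack -/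
theorem C_rdR {M : TM0.Machine Γ Λ} (hw : Sat M w) (l r : List Γ) (q : Λ) :
    C w l r (w (.st (.rd true q))) = C w l r.tail (w (.st (.run q r.headI))) := by
  cases r with
  | nil =>
    rw [C_nilR l (hw.rdN true q)]
    rfl
  | cons a r =>
    rw [C_consR, hw.rdS]
    rfl

/-- reading the top of the left stack -/
theorem C_rdL {M : TM0.Machine Γ Λ} (hw : Sat M w) (l r : List Γ) (q : Λ) :
    C w l r (w (.st (.rd false q))) = C w l.tail r (w (.st (.run q l.headI))) := by
  cases l with
  | nil =>
    rw [C_nilL hw r (hw.rdN false q)]
    rfl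
  | cons a l =>
    rw [C_consL hw, hw.rdS]
    rfl

theorem C_of_halts {M : TM0.Machine Γ Λ} (hw : Sat M w) {b c : TM0.Cfg Γ Λ}
    (h : b ∈ StateTransition.eval (TM0.step M) c) :
    ∀ l r : List Γ, c.Tape.left = ListBlank.mk l → c.Tape.right = ListBlank.mk r →
      C w l r (w (.st (.run c.q c.Tape.head))) = C w [] [] (w (.st .halt)) := by
  refine StateTransition.evalInduction
    (C := fun c : TM0.Cfg Γ Λ => ∀ l r : List Γ, c.Tape.left = ListBlank.mk l →
      c.Tape.right = ListBlank.mk r →
      C w l r (w (.st (.run c.q c.Tape.head))) = C w [] [] (w (.st .halt))) h ?_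
  rintro ⟨q, T⟩ - ih l r hl hr
  simp only at hl hr ⊢
  rcases hq : M q T.head with _ | ⟨q', dir | a⟩
  · rw [hw.runN _ _ hq, C_halt hw]
  · cases dir with
    | left =>
      have e : TM0.step M ⟨q, T⟩ = some ⟨q', T.move Dir.left⟩ := by
        simp [TM0.step, hq]
      have h1 := ih _ e l.tail (T.head :: r) (by simp [Tape.move, hl])
        (by simp [Tape.move, hr])
      rw [hw.runL _ _ _ hq, ← C_consR, C_rdL hw]
      have h2 : (T.move Dir.left).head = l.headI := by
        simp [Tape.move, hl]
      simp only [h2] at h1
      exact h1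
    | right =>
      have e : TM0.step M ⟨q, T⟩ = some ⟨q', T.move Dir.right⟩ := by
        simp [TM0.step, hq]
      have h1 := ih _ e (T.head :: l) r.tail (by simp [Tape.move, hl])
        (by simp [Tape.move, hr])
      rw [hw.runR _ _ _ hq, ← C_consL hw, C_rdR hw]
      have h2 : (T.move Dir.right).head = r.headI := by
        simp [Tape.move, hr]
      simp only [h2] at h1
      exact h1
  · have e : TM0.step M ⟨q, T⟩ = some ⟨q', T.write a⟩ := by
      simp [TM0.step, hq]
    have h1 := ih _ e l r (by simp [Tape.write, hl]) (by simp [Tape.write, hr])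
    rw [hw.runW _ _ _ _ hq]
    have h2 : (T.write a).head = a := by
      simp [Tape.write]
    simp only [h2] at h1
    exact h1

theorem C_init {M : TM0.Machine Γ Λ} (hw : Sat M w) (inp : List Γ)
    (h : (TM0.eval M inp).Dom) :
    C w [] inp (w (.st (.rd true default))) = C w [] [] (w (.st .halt)) := by
  rw [C_rdR hw]
  obtain ⟨b, hb⟩ := Part.dom_iff_mem.mp (show (StateTransition.eval (TM0.step M)
    (TM0.init inp)).Dom from h)
  have := C_of_halts hw hb [] inp.tail rfl (by simp [TM0.init, Tape.mk₁, Tape.mk₂, Tape.mk'])
  have h2 : (TM0.init inp : TM0.Cfg Γ Λ).Tape.head = inp.headI := by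
    simp [TM0.init, Tape.mk₁, Tape.mk₂, Tape.mk']
  rw [h2] at this
  exact this

end sem

end Pool.Agent.Lib.MP_6fdd0d_al
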