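import Pool.Agent.Lib.MP_6fdd0d_al.Machine

/-!
# The Hilbert space model of the presentation
-/

namespace Pool.Agent.Lib.MP_6fdd0d_al

open Turing OrthomodularLattice

set_option linter.unusedSectionVars false

variable {Γ Λ : Type} [Inhabited Γ] [Inhabited Λ] (M : TM0.Machine Γ Λ)

/-- the half tape represented by a stack -/
def decode : List (Option Γ) → ListBlank Γ
  | [] => ListBlank.mk []
  | none :: _ => ListBlank.mk []
  | some a :: l => (decode l).cons a

theorem decode_map (l : List Γ) : decode (l.map some ++ [none]) = ListBlank.mk l := by
  induction l with
  | nil => rfl
  | cons a l ih =>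
    have : decode ((a :: l).map some ++ [none]) = (decode (l.map some ++ [none])).cons a := rfl
    rw [this, ih]
    rfl

open Classical in
/-- does the machine halt -/
noncomputable def hv (c : TM0.Cfg Γ Λ) : Bool := decide (StateTransition.eval (TM0.step M) c).Dom

theorem hv_iff (c : TM0.Cfg Γ Λ) : hv M c = true ↔ (StateTransition.eval (TM0.step M) c).Dom := by
  classical
  unfold hv
  exact decide_eq_true_iff

theorem hv_step {c c' : TM0.Cfg Γ Λ} (h : TM0.step M c = some c') : hv M c = hv M c' := by
  have : StateTransition.eval (TM0.step M) c = StateTransition.eval (TM0.step M) c' :=
    StateTransition.reaches_eval (Relation.ReflTransGen.single h)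
  rw [Bool.eq_iff_iff, hv_iff, hv_iff, this]

theorem hv_none {c : TM0.Cfg Γ Λ} (h : TM0.step M c = none) : hv M c = true := by
  rw [hv_iff, Part.dom_iff_mem]
  exact ⟨c, StateTransition.mem_eval.mpr ⟨Relation.ReflTransGen.refl, h⟩⟩

/-- the halting function attached to a state -/
noncomputable def val : St Γ Λ → (Bool → List (Option Γ)) → Bool
  | .run q h => fun m => hv M ⟨q, ⟨h, decode (m false), decode (m true)⟩⟩
  | .rd true q => fun m =>
      hv M ⟨q, ⟨(decode (m true)).head, decode (m false), (decode (m true)).tail⟩⟩
  | .rd false q => fun m =>
      hv M ⟨q, ⟨(decode (m false)).head, (decode (m false)).tail, decode (m true)⟩⟩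
  | .halt => fun _ => true

variable [DecidableEq Γ] [Fintype Γ]

/-- the involutions -/
noncomputable def loc : Cst (Option Γ) → Loc (Option Γ)
  | .e => locE
  | .d => locD
  | .g a => locG a

/-- the generators in the model -/
noncomputable def mw : Gen Γ Λ → Cl (H (Option Γ))
  | .cst k c => Cl.fixC (op k (loc c)) (op_isInv k _)
  | .st s => Cl.line (vec (val M s))

theorem push_line (k : Bool) (a : Option Γ) (f : (Bool → List (Option Γ)) → Bool) :
    push (mw M) k a (Cl.line (vec f)) = Cl.line (vec (act k a f)) := by
  unfold push
  simp only [mw]
  rw [Cl.sas_line, Cl.fixC_compl, Cl.sas_line, Cl.sas_line, Cl.sas_line]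
  have := chain k a f
  simp only at this
  have h4 : (4 * rr (Option Γ)) ≠ 0 := by
    have := rr_pos (Option Γ)
    positivity
  rw [← Cl.line_smul h4 (vec (act k a f)), ← this]
  rfl

theorem mw_sat : Sat M (mw M) where
  comm c c' := Cl.fixC_comm _ _ (op_isInv false (loc c)) (op_isInv true (loc c'))
    (op_comm (by decide) _ _)
  runN q h hq := by
    have : val M (.run q h) = val M .halt := by
      funext m
      exact hv_none M (by simp [TM0.step, hq])
    simp only [mw, this]
  runW q h q' a hq := by
    have : val M (.run q h) = val M (.run q' a) := by
      funext m
      exact hv_step M (by simp [TM0.step, hq, Tape.write])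
    simp only [mw, this]
  runL q h q' hq := by
    have : val M (.run q h) = act true (some h) (val M (.rd false q')) := by
      funext m
      have e : decode (some h :: m true) = (decode (m true)).cons h := rfl
      simp only [act, val, Function.update_self]
      rw [Function.update_of_ne (by decide), e]
      exact hv_step M (by simp [TM0.step, hq, Tape.move])
    simp only [mw]
    rw [show (Cl.line (vec (val M (St.rd false q')))) = mw M (.st (.rd false q')) from rfl]
    rw [this]
    exact (push_line M _ _ _).symm
  runR q h q' hq := by
    have : val M (.run q h) = act false (some h) (val M (.rd true q')) := by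
      funext m
      have e : decode (some h :: m false) = (decode (m false)).cons h := rfl
      simp only [act, val, Function.update_self]
      rw [Function.update_of_ne (by decide), e]
      exact hv_step M (by simp [TM0.step, hq, Tape.move])
    simp only [mw]
    rw [show (Cl.line (vec (val M (St.rd true q')))) = mw M (.st (.rd true q')) from rfl]
    rw [this]
    exact (push_line M _ _ _).symm
  rdS k a q := by
    have : val M (.run q a) = act k (some a) (val M (.rd k q)) := by
      funext m
      cases k
      · have e : decode (some a :: m false) = (decode (m false)).cons a := rfl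
        simp only [act, val, Function.update_self]
        rw [Function.update_of_ne (by decide), e]
        simp
      · have e : decode (some a :: m true) = (decode (m true)).cons a := rfl
        simp only [act, val, Function.update_self]
        rw [Function.update_of_ne (by decide), e]
        simp
    have h1 := push_line M k (some a) (val M (.rd k q))
    rw [← this] at h1
    exact h1
  rdN k q := by
    have : act k none (val M (.rd k q)) = act k none (val M (.run q default)) := by
      funext m
      cases k
      · have e : decode (none :: m false) = ListBlank.mk [] := rfl
        simp only [act, val, Function.update_self]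
        rw [Function.update_of_ne (by decide), e]
        rfl
      · have e : decode (none :: m true) = ListBlank.mk [] := rfl
        simp only [act, val, Function.update_self]
        rw [Function.update_of_ne (by decide), e]
        rfl
    have h1 := push_line M k none (val M (.rd k q))
    have h2 := push_line M k none (val M (.run q default))
    rw [this, ← h2] at h1
    exact h1
  hlt k a := by
    have : act k (some a) (val M (.halt)) = val M (.halt) := rfl
    have h1 := push_line M k (some a) (val M (.halt))
    rw [this] at h1
    exact h1

/-- iterated action -/
def acts (k : Bool) (l : List (Option Γ)) (f : (Bool → List (Option Γ)) → Bool) :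
    (Bool → List (Option Γ)) → Bool :=
  l.foldl (fun t a => act k a t) f

theorem pushes_line (k : Bool) (l : List (Option Γ)) (f : (Bool → List (Option Γ)) → Bool) :
    pushes (mw M) k l (Cl.line (vec f)) = Cl.line (vec (acts k l f)) := by
  induction l generalizing f with
  | nil => rfl
  | cons a l ih =>
    simp only [pushes, acts, List.foldl_cons] at ih ⊢
    rw [push_line, ih]

theorem acts_apply (k : Bool) (l : List (Option Γ)) (f : (Bool → List (Option Γ)) → Bool)
    (m : Bool → List (Option Γ)) : acts k l f m = f (Function.update m k (l ++ m k)) := by
  induction l generalizing f with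
  | nil => simp [acts]
  | cons a l ih =>
    simp only [acts, List.foldl_cons] at ih ⊢
    rw [ih]
    simp [act]

theorem acts2 (l r : List (Option Γ)) (f : (Bool → List (Option Γ)) → Bool) :
    acts false l (acts true r f) (fun _ => []) = f (fun k => if k then r else l) := by
  rw [acts_apply, acts_apply]
  congr 1
  funext k
  cases k <;> simp

theorem halts_of_C {inp : List Γ}
    (h : C (mw M) [] inp (mw M (.st (.rd true default))) = C (mw M) [] [] (mw M (.st .halt))) :
    (TM0.eval M inp).Dom := by
  unfold C at h
  simp only [mw] at h
  rw [pushes_line, pushes_line, pushes_line, pushes_line] at h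
  have h1 := vec_line_ne h
  rw [acts2, acts2] at h1
  have h2 : val M St.halt = fun _ => true := rfl
  rw [h2] at h1
  simp only [val, if_true, Bool.false_eq_true, if_false] at h1
  rw [decode_map, decode_map, hv_iff] at h1
  exact h1

end Pool.Agent.Lib.MP_6fdd0d_al
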