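import Pool.Agent.Lib.MP_6fdd0d_al.Defs

/-!
# Sasaki projections in orthomodular lattices
-/

namespace Pool.Agent.Lib.MP_6fdd0d_al

namespace OrthomodularLattice

variable {L : Type*} [OrthomodularLattice L]

theorem cc (a : L) : aᶜᶜ = a := compl_compl' a

theorem anti {a b : L} (h : a ≤ b) : bᶜ ≤ aᶜ := compl_antitone' a b h

theorem c_inf (a b : L) : (a ⊓ b)ᶜ = aᶜ ⊔ bᶜ := by
  apply le_antisymm
  · have h1 : (aᶜ ⊔ bᶜ)ᶜ ≤ a := by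
      have := anti (le_sup_left : aᶜ ≤ aᶜ ⊔ bᶜ)
      rwa [cc] at this
    have h2 : (aᶜ ⊔ bᶜ)ᶜ ≤ b := by
      have := anti (le_sup_right : bᶜ ≤ aᶜ ⊔ bᶜ)
      rwa [cc] at this
    have := anti (le_inf h1 h2)
    rwa [cc] at this
  · exact sup_le (anti inf_le_left) (anti inf_le_right)

theorem c_sup (a b : L) : (a ⊔ b)ᶜ = aᶜ ⊓ bᶜ := by
  have := c_inf aᶜ bᶜ
  rw [cc, cc] at this
  rw [← this, cc]

/-- dual orthomodular law -/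
theorem om' {a b : L} (h : a ≤ b) : b ⊓ (a ⊔ bᶜ) = a := by
  have := orthomodular' bᶜ aᶜ (anti h)
  rw [cc] at this
  have h2 := congrArg (fun x : L => xᶜ) this
  simp only [cc, c_sup, c_inf] at h2
  exact h2.symm

/-- `a` commutes with `b`. -/
def Comm (a b : L) : Prop := a = (a ⊓ b) ⊔ (a ⊓ bᶜ)

theorem Comm.symm {a b : L} (h : Comm a b) : Comm b a := by
  have h1 : aᶜ ⊓ b = (a ⊓ b)ᶜ ⊓ b := by
    have h2 : aᶜ = (a ⊓ b)ᶜ ⊓ (a ⊓ bᶜ)ᶜ := by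
      rw [← c_sup, ← h]
    rw [h2, inf_assoc]
    congr 1
    apply inf_eq_right.mpr
    rw [c_inf, cc]
    exact le_sup_right
  have h3 := orthomodular' (a ⊓ b) b inf_le_right
  unfold Comm
  rw [inf_comm b a, inf_comm b aᶜ, h1, inf_comm (a ⊓ b)ᶜ b]
  exact h3

theorem Comm.compl_right {a b : L} (h : Comm a b) : Comm a bᶜ := by
  unfold Comm at *
  rw [cc, sup_comm]
  exact h

theorem Comm.compl_left {a b : L} (h : Comm a b) : Comm aᶜ b :=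
  (h.symm.compl_right).symm

theorem comm_of_le {a b : L} (h : a ≤ b) : Comm a b := by
  unfold Comm
  rw [inf_eq_left.mpr h]
  exact (sup_eq_left.mpr inf_le_left).symm

/-- for commuting elements, `a ∧ (a' ∨ b) = a ∧ b` -/
theorem Comm.inf_sup {a b : L} (h : Comm a b) : a ⊓ (aᶜ ⊔ b) = a ⊓ b := by
  have h1 : a ⊓ b ≤ (a ⊓ bᶜ)ᶜ := by
    rw [c_inf, cc]
    exact inf_le_right.trans le_sup_right
  have h2 := om' h1
  rw [cc, ← h, c_inf, cc, inf_comm] at h2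
  exact h2

theorem eq_of_le_of_inf_compl {a b : L} (h : a ≤ b) (h2 : b ⊓ aᶜ = ⊥) : a = b := by
  have := orthomodular' a b h
  rw [h2, sup_bot_eq] at this
  exact this.symm

/-- a case of the Foulis-Holland theorem -/
theorem fh {y d z : L} (hy : dᶜ ≤ y) (hz : Comm z d) : (y ⊓ d) ⊔ z = (y ⊔ z) ⊓ (d ⊔ z) := by
  apply eq_of_le_of_inf_compl
  · exact le_inf (sup_le_sup_right inf_le_left z) (sup_le_sup_right inf_le_right z)
  · have h1 : (d ⊔ z) ⊓ zᶜ = d ⊓ zᶜ := by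
      have := (hz.compl_left).inf_sup
      rw [cc] at this
      rw [inf_comm, sup_comm, this, inf_comm]
    have h2 : d ⊓ (yᶜ ⊔ dᶜ) = yᶜ := by
      have h3 : yᶜ ≤ d := by
        have := anti hy
        rwa [cc] at this
      exact om' h3
    rw [c_sup, c_inf]
    apply le_antisymm _ bot_le
    calc (y ⊔ z) ⊓ (d ⊔ z) ⊓ ((yᶜ ⊔ dᶜ) ⊓ zᶜ)
        = (y ⊔ z) ⊓ (((d ⊔ z) ⊓ zᶜ) ⊓ (yᶜ ⊔ dᶜ)) := by
          rw [inf_assoc, inf_assoc, inf_comm (yᶜ ⊔ dᶜ) zᶜ]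
      _ = (y ⊔ z) ⊓ (zᶜ ⊓ (d ⊓ (yᶜ ⊔ dᶜ))) := by
          rw [h1, inf_comm d zᶜ, inf_assoc]
      _ = (y ⊔ z) ⊓ (zᶜ ⊓ yᶜ) := by rw [h2]
      _ = (y ⊔ z) ⊓ (y ⊔ z)ᶜ := by rw [c_sup, inf_comm zᶜ]
      _ ≤ ⊥ := (inf_compl' _).le

/-- The Sasaki projection. -/
def sas (c x : L) : L := (x ⊔ cᶜ) ⊓ c

theorem sas_sas {c d : L} (h : Comm c d) (x : L) : sas c (sas d x) = sas (c ⊓ d) x := by
  unfold sas
  have h1 : ((x ⊔ dᶜ) ⊓ d) ⊔ cᶜ = (x ⊔ dᶜ ⊔ cᶜ) ⊓ (d ⊔ cᶜ) :=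
    fh le_sup_right h.compl_left
  rw [h1, inf_assoc]
  have h2 : (d ⊔ cᶜ) ⊓ c = c ⊓ d := by
    rw [inf_comm, sup_comm]
    exact h.inf_sup
  rw [h2, c_inf, sup_assoc, sup_comm dᶜ cᶜ]

theorem sas_comm {c d : L} (h : Comm c d) (x : L) : sas c (sas d x) = sas d (sas c x) := by
  rw [sas_sas h, sas_sas h.symm, inf_comm]

end OrthomodularLattice

end Pool.Agent.Lib.MP_6fdd0d_al
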