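import Pool.Agent.Lib.MP_6fdd0d_al.Closed
import Pool.Agent.Lib.MP_6fdd0d_al.Sasaki

section

/-!
# The stack model in `ℓ²`
-/

namespace Pool.Agent.Lib.MP_6fdd0d_al

open scoped InnerProductSpace

/-- local data of one stack: its content (innermost letter first) and a doubling bit -/
abbrev X (A : Type) : Type := List A × Bool

/-- index set of the Hilbert space -/
abbrev I (A : Type) : Type := (Bool → X A) × Bool

/-- the Hilbert space -/
abbrev H (A : Type) : Type := lp (fun _ : I A => ℝ) 2

/-- A signed involution of `X A`. -/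
structure Loc (A : Type) where
  σ : X A → X A
  χ : X A → ℝ
  inv : ∀ x, σ (σ x) = x
  sq : ∀ x, χ x * χ x = 1
  comp : ∀ x, χ (σ x) = χ x

set_option linter.unusedSectionVars false

variable {A : Type}

/-- Apply `σ` at the coordinate `k`. -/
def lift (k : Bool) (σ : X A → X A) (i : I A) : I A := (Function.update i.1 k (σ (i.1 k)), i.2)

theorem lift_lift (k : Bool) (σ : X A → X A) (h : ∀ x, σ (σ x) = x) (i : I A) :
    lift k σ (lift k σ i) = i := by
  unfold lift
  simp [h]

theorem lift_comm {k k' : Bool} (hk : k ≠ k') (σ σ' : X A → X A) (i : I A) :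
    lift k σ (lift k' σ' i) = lift k' σ' (lift k σ i) := by
  unfold lift
  simp only [Prod.mk.injEq, and_true]
  rw [Function.update_of_ne hk, Function.update_of_ne hk.symm, Function.update_comm hk]

/-- lift as an equivalence -/
def liftE (k : Bool) (l : Loc A) : I A ≃ I A :=
  ⟨lift k l.σ, lift k l.σ, lift_lift k l.σ l.inv, lift_lift k l.σ l.inv⟩

theorem Loc.norm_sq (l : Loc A) (x : X A) (y : ℝ) : ‖l.χ x * y‖ ^ (2 : ℝ) = ‖y‖ ^ (2 : ℝ) := by
  have h : ‖l.χ x‖ * ‖l.χ x‖ = 1 := by rw [← norm_mul, l.sq]; simp
  have h2 : ‖l.χ x‖ = 1 := by nlinarith [norm_nonneg (l.χ x)]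
  rw [norm_mul, h2, one_mul]

theorem op_mem (k : Bool) (l : Loc A) (v : H A) :
    Memℓp (fun i : I A => l.χ (i.1 k) * v (lift k l.σ i)) 2 := by
  have h := lp.memℓp v
  rw [memℓp_gen_iff (by simp)] at h ⊢
  simp only [ENNReal.toReal_ofNat] at h ⊢
  simp only [l.norm_sq]
  exact (liftE k l).summable_iff.mpr h

/-- The operator on `ℓ²`. -/
noncomputable def op (k : Bool) (l : Loc A) : H A →ₗ[ℝ] H A where
  toFun v := ⟨fun i => l.χ (i.1 k) * v (lift k l.σ i), op_mem k l v⟩
  map_add' v w := by
    ext i
    simp only [lp.coeFn_add, Pi.add_apply, mul_add]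
  map_smul' c v := by
    ext i
    simp only [lp.coeFn_smul, Pi.smul_apply, smul_eq_mul, RingHom.id_apply]
    ring

theorem op_apply (k : Bool) (l : Loc A) (v : H A) (i : I A) :
    op k l v i = l.χ (i.1 k) * v (lift k l.σ i) := rfl

theorem op_isInv (k : Bool) (l : Loc A) : Cl.IsInv (op k l) where
  sq v := by
    ext i
    rw [op_apply, op_apply, lift_lift k l.σ l.inv]
    have : (lift k l.σ i).1 k = l.σ (i.1 k) := by simp [lift]
    rw [this, l.comp, ← mul_assoc, l.sq, one_mul]
  inner v w := by
    rw [lp.inner_eq_tsum, lp.inner_eq_tsum]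
    rw [← (liftE k l).tsum_eq]
    congr 1
    ext i
    have h1 : (liftE k l) i = lift k l.σ i := rfl
    rw [h1, op_apply, op_apply, lift_lift k l.σ l.inv]
    have : (lift k l.σ i).1 k = l.σ (i.1 k) := by simp [lift]
    rw [this, l.comp]
    simp
    ring

theorem op_comm {k k' : Bool} (hk : k ≠ k') (l l' : Loc A) (v : H A) :
    op k l (op k' l' v) = op k' l' (op k l v) := by
  ext i
  simp only [op_apply]
  rw [lift_comm hk]
  have h1 : (lift k l.σ i).1 k' = i.1 k' := by simp [lift, hk.symm]
  have h2 : (lift k' l'.σ i).1 k = i.1 k := by simp [lift, hk]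
  rw [h1, h2]
  ring

/-- sign change on the second copy -/
def locE : Loc A where
  σ := id
  χ x := if x.2 then -1 else 1
  inv _ := rfl
  sq x := by cases x.2 <;> simp
  comp _ := rfl

/-- swap the copies -/
def locD : Loc A where
  σ x := (x.1, !x.2)
  χ _ := 1
  inv x := by simp
  sq _ := by simp
  comp _ := rfl

variable [DecidableEq A]

/-- swap `(a :: m, false)` and `(m, true)` -/
def swp (a : A) (x : X A) : X A :=
  if x.2 then (a :: x.1, false) else
    match x.1 with
    | [] => ([], false)
    | b :: m => if b = a then (m, true) else (b :: m, false)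

theorem swp_swp (a : A) (x : X A) : swp a (swp a x) = x := by
  obtain ⟨m, ε⟩ := x
  cases ε
  · cases m with
    | nil => simp [swp]
    | cons b m =>
      by_cases h : b = a
      · subst h
        simp [swp]
      · simp [swp, h]
  · simp [swp]

/-- swap `(a :: m, false)` and `(m, true)` -/
def locG (a : A) : Loc A where
  σ := swp a
  χ _ := 1
  inv := swp_swp a
  sq _ := by simp
  comp _ := rfl

variable [Fintype A]

/-- the ratio of weights -/
noncomputable def rr (A : Type) [Fintype A] : ℝ := 1 / (Fintype.card A + 1)

theorem rr_pos (A : Type) [Fintype A] : 0 < rr A := by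
  unfold rr
  positivity

/-- the weight of a pair of words -/
noncomputable def wt (m : Bool → List A) : ℝ := rr A ^ (m false).length * rr A ^ (m true).length

theorem wt_update (m : Bool → List A) (k : Bool) (a : A) :
    wt (Function.update m k (a :: m k)) = rr A * wt m := by
  unfold wt
  cases k <;> simp [pow_succ] <;> ring

/-- the content of the stacks -/
def cont (x : Bool → X A) : Bool → List A := fun k => (x k).1

theorem summable_list : Summable (fun m : List A => (rr A ^ m.length) ^ 2) := by
  rw [← (Equiv.sigmaFiberEquiv (List.length : List A → ℕ)).summable_iff]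
  have hf : ∀ n : ℕ, Finite {m : List A // m.length = n} := fun n =>
    inferInstanceAs (Finite (List.Vector A n))
  have hcard : ∀ n : ℕ, Nat.card {m : List A // m.length = n} = Fintype.card A ^ n := fun n => by
    have h1 : Nat.card (List.Vector A n) = Fintype.card A ^ n := by
      rw [Nat.card_eq_fintype_card, card_vector]
    exact h1
  have hq : (Fintype.card A : ℝ) * rr A ^ 2 < 1 := by
    unfold rr
    rw [one_div, inv_pow, ← div_eq_mul_inv, div_lt_one (by positivity)]
    nlinarith [(Nat.cast_nonneg (Fintype.card A) : (0 : ℝ) ≤ Fintype.card A)]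
  rw [summable_sigma_of_nonneg]
  · refine ⟨fun n => ?_, ?_⟩
    · have := hf n
      exact Summable.of_finite
    · have h2 : ∀ n : ℕ, (∑' y : {m : List A // m.length = n},
          ((fun m : List A => (rr A ^ m.length) ^ 2) ∘
            (Equiv.sigmaFiberEquiv (List.length : List A → ℕ))) ⟨n, y⟩) =
          ((Fintype.card A : ℝ) * rr A ^ 2) ^ n := by
        intro n
        have h3 : ∀ y : {m : List A // m.length = n},
            ((fun m : List A => (rr A ^ m.length) ^ 2) ∘
              (Equiv.sigmaFiberEquiv (List.length : List A → ℕ))) ⟨n, y⟩ = (rr A ^ n) ^ 2 := by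
          intro y
          simp only [Function.comp, Equiv.sigmaFiberEquiv_apply, y.2]
        rw [tsum_congr h3, tsum_const, hcard, nsmul_eq_mul, mul_pow, Nat.cast_pow]
        ring
      simp only [h2]
      exact summable_geometric_of_lt_one (by have := rr_pos A; positivity) hq
  · intro x
    exact sq_nonneg _

theorem summable_wt : Summable (fun m : Bool → List A => wt m ^ 2) := by
  rw [← (Equiv.boolArrowEquivProd (List A)).symm.summable_iff]
  have h := (summable_list (A := A)).mul_of_nonneg (summable_list (A := A))
    (fun _ => sq_nonneg _) (fun _ => sq_nonneg _)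
  refine h.congr fun x => ?_
  simp [wt, Equiv.boolArrowEquivProd, mul_pow]

/-- an index is admissible for `f` when its bits vanish and its last component is given by `f` -/
def adm (f : (Bool → List A) → Bool) (i : I A) : Prop :=
  (∀ k, (i.1 k).2 = false) ∧ i.2 = f (cont i.1)

open Classical in
/-- the coordinates of the state vector -/
noncomputable def vecFun (f : (Bool → List A) → Bool) (i : I A) : ℝ :=
  if adm f i then wt (cont i.1) else 0

theorem vecFun_mem (f : (Bool → List A) → Bool) : Memℓp (vecFun f) 2 := by
  rw [memℓp_gen_iff (by simp)]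
  simp only [ENNReal.toReal_ofNat]
  let g : (Bool → List A) → I A := fun m => (fun k => (m k, false), f m)
  have hg : Function.Injective g := by
    intro m m' h
    funext k
    have := congrArg (fun i : I A => (i.1 k).1) h
    exact this
  rw [← hg.summable_iff]
  · refine summable_wt.congr fun m => ?_
    have : adm f (g m) := ⟨fun _ => rfl, rfl⟩
    simp only [Function.comp, vecFun, if_pos this]
    have h2 : cont (g m).1 = m := rfl
    rw [h2]
    simp
  · intro i hi
    have : ¬ adm f i := by
      intro h
      apply hi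
      refine ⟨cont i.1, ?_⟩
      refine Prod.ext ?_ h.2.symm
      funext k
      exact Prod.ext rfl (h.1 k).symm
    simp [vecFun, if_neg this]

/-- the state vector -/
noncomputable def vec (f : (Bool → List A) → Bool) : H A := ⟨vecFun f, vecFun_mem f⟩

theorem vec_apply (f : (Bool → List A) → Bool) (i : I A) : vec f i = vecFun f i := rfl

/-- action of letters on functions -/
def act (k : Bool) (a : A) (f : (Bool → List A) → Bool) : (Bool → List A) → Bool :=
  fun m => f (Function.update m k (a :: m k))

theorem chain (k : Bool) (a : A) (f : (Bool → List A) → Bool) :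
    let v1 := vec f + op k (locG a) (vec f)
    let v2 := v1 + (-op k locE) v1
    let v3 := v2 + op k locD v2
    v3 + op k locE v3 = (4 * rr A) • vec (act k a f) := by
  intro v1 v2 v3
  ext i
  have e1 : ∀ j : I A, v1 j = vecFun f j + vecFun f (lift k (swp a) j) := by
    intro j
    simp only [v1, lp.coeFn_add, Pi.add_apply, op_apply, vec_apply]
    simp [locG]
  have e2 : ∀ j : I A, v2 j = if (j.1 k).2 then 2 * v1 j else 0 := by
    intro j
    simp only [v2, lp.coeFn_add, Pi.add_apply, LinearMap.neg_apply, lp.coeFn_neg, Pi.neg_apply,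
      op_apply]
    have : lift k locE.σ j = j := by simp [lift, locE]
    rw [this]
    cases h : (j.1 k).2
    · simp [locE, h]
    · simp [locE, h]
      ring
  have e3 : ∀ j : I A, v3 j = v2 j + v2 (lift k (fun x => (x.1, !x.2)) j) := by
    intro j
    simp only [v3, lp.coeFn_add, Pi.add_apply, op_apply]
    simp [locD]
  have e4 : (v3 + op k locE v3) i = if (i.1 k).2 then 0 else 2 * v3 i := by
    simp only [lp.coeFn_add, Pi.add_apply, op_apply]
    have : lift k locE.σ i = i := by simp [lift, locE]
    rw [this]
    cases h : (i.1 k).2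
    · simp [locE, h]
      ring
    · simp [locE, h]
  rw [e4, lp.coeFn_smul, Pi.smul_apply, vec_apply, smul_eq_mul]
  cases h : (i.1 k).2
  · have hi : ((lift k (fun x => (x.1, !x.2)) i).1 k).2 = true := by simp [lift, h]
    rw [e3, e2, e2, h, hi, e1 (lift k (fun x => (x.1, !x.2)) i)]
    have h5 : vecFun f (lift k (fun x => (x.1, !x.2)) i) = 0 := by
      unfold vecFun
      rw [if_neg]
      intro h'
      have := h'.1 k
      rw [hi] at this
      exact absurd this (by decide)
    rw [h5]
    set j : I A := lift k (swp a) (lift k (fun x => (x.1, !x.2)) i) with hj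
    have h6 : j = (Function.update i.1 k (a :: (i.1 k).1, false), i.2) := by
      simp [hj, lift, swp, h]
    have h7 : cont j.1 = Function.update (cont i.1) k (a :: cont i.1 k) := by
      rw [h6]
      funext k'
      by_cases hk : k' = k
      · subst hk
        simp [cont]
      · simp [cont, hk]
    have h8 : adm f j ↔ adm (act k a f) i := by
      unfold adm
      rw [h7]
      have h9 : (∀ k', (j.1 k').2 = false) ↔ (∀ k', (i.1 k').2 = false) := by
        constructor
        · intro hh k'
          by_cases hk : k' = k
          · subst hk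
            exact h
          · have := hh k'
            rw [h6] at this
            simpa [hk] using this
        · intro hh k'
          rw [h6]
          by_cases hk : k' = k
          · subst hk
            simp
          · simpa [hk] using hh k'
      rw [h9]
      have h10 : j.2 = i.2 := by rw [h6]
      rw [h10]
      rfl
    have h11 : vecFun f j = rr A * vecFun (act k a f) i := by
      unfold vecFun
      by_cases hh : adm f j
      · rw [if_pos hh, if_pos (h8.mp hh), h7, wt_update]
      · rw [if_neg hh, if_neg (fun h' => hh (h8.mpr h')), mul_zero]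
    rw [h11]
    simp
    ring
  · have : vecFun (act k a f) i = 0 := by
      unfold vecFun
      rw [if_neg]
      intro h'
      have := h'.1 k
      rw [h] at this
      exact absurd this (by decide)
    rw [this]
    simp

theorem vec_line_ne {f g : (Bool → List A) → Bool} (h : Cl.line (vec f) = Cl.line (vec g)) :
    f (fun _ => []) = g (fun _ => []) := by
  by_contra hne
  have h1 : vec f ∈ Submodule.span ℝ {vec g} := by
    have h2 : (Cl.line (vec f)).1 = (Cl.line (vec g)).1 := by rw [h]
    have h3 : Submodule.span ℝ {vec f} = Submodule.span ℝ {vec g} := h2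
    rw [← h3]
    exact Submodule.mem_span_singleton_self _
  obtain ⟨c, hc⟩ := Submodule.mem_span_singleton.mp h1
  have h4 := congrArg (fun v : H A => v (fun _ => ([], false), f (fun _ => []))) hc
  simp only [lp.coeFn_smul, Pi.smul_apply, vec_apply, smul_eq_mul] at h4
  have h5 : vecFun f (fun _ => ([], false), f (fun _ => [])) = 1 := by
    unfold vecFun
    rw [if_pos ⟨fun _ => rfl, rfl⟩]
    simp [wt, cont]
  have h6 : vecFun g (fun _ => ([], false), f (fun _ => [])) = 0 := by
    unfold vecFun
    rw [if_neg]
    intro h'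
    exact hne h'.2
  rw [h5, h6] at h4
  simp at h4

end Pool.Agent.Lib.MP_6fdd0d_al
end

section

/-!
# The presented orthomodular lattice
-/

namespace Pool.Agent.Lib.MP_6fdd0d_al

variable {n : ℕ} (R : List (Term n × Term n))

theorem Eqv.refl (s : Term n) : Eqv R s s := .ident fun _ _ _ => rfl

/-- The congruence -/
def eqvSetoid : Setoid (Term n) := ⟨Eqv R, Eqv.refl R, Eqv.symm, Eqv.trans⟩

/-- The presented orthomodular lattice -/
def Pres : Type := Quotient (eqvSetoid R)

namespace Pres

variable {R}

/-- class of a term -/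
def mk (s : Term n) : Pres R := Quotient.mk (eqvSetoid R) s

theorem mk_eq {s t : Term n} : (mk s : Pres R) = mk t ↔ Eqv R s t :=
  Quotient.eq (r := eqvSetoid R)

theorem exists_mk (a : Pres R) : ∃ s, mk s = a := Quotient.exists_rep a

instance : Max (Pres R) := ⟨Quotient.map₂ Term.sup fun _ _ h _ _ h' => Eqv.sup h h'⟩
instance : Min (Pres R) := ⟨Quotient.map₂ Term.inf fun _ _ h _ _ h' => Eqv.inf h h'⟩
instance : Compl (Pres R) := ⟨Quotient.map Term.compl fun _ _ h => Eqv.compl h⟩

theorem mk_sup (s t : Term n) : (mk s ⊔ mk t : Pres R) = mk (s.sup t) := rfl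
theorem mk_inf (s t : Term n) : (mk s ⊓ mk t : Pres R) = mk (s.inf t) := rfl
theorem mk_compl (s : Term n) : ((mk s)ᶜ : Pres R) = mk s.compl := rfl

theorem mk_ident {s t : Term n}
    (h : ∀ (L : Type) [OrthomodularLattice L] (v : Fin n → L), s.eval v = t.eval v) :
    (mk s : Pres R) = mk t := mk_eq.mpr (.ident h)

instance instLat : Lattice (Pres R) :=
  Lattice.mk'
    (fun a b => by
      obtain ⟨s, rfl⟩ := exists_mk a
      obtain ⟨t, rfl⟩ := exists_mk b
      exact mk_ident (s := s.sup t) (t := t.sup s) fun _ _ _ => sup_comm _ _)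
    (fun a b c => by
      obtain ⟨s, rfl⟩ := exists_mk a
      obtain ⟨t, rfl⟩ := exists_mk b
      obtain ⟨u, rfl⟩ := exists_mk c
      exact mk_ident (s := (s.sup t).sup u) (t := s.sup (t.sup u)) fun _ _ _ => sup_assoc _ _ _)
    (fun a b => by
      obtain ⟨s, rfl⟩ := exists_mk a
      obtain ⟨t, rfl⟩ := exists_mk b
      exact mk_ident (s := s.inf t) (t := t.inf s) fun _ _ _ => inf_comm _ _)
    (fun a b c => by
      obtain ⟨s, rfl⟩ := exists_mk a
      obtain ⟨t, rfl⟩ := exists_mk b
      obtain ⟨u, rfl⟩ := exists_mk c
      exact mk_ident (s := (s.inf t).inf u) (t := s.inf (t.inf u)) fun _ _ _ => inf_assoc _ _ _)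
    (fun a b => by
      obtain ⟨s, rfl⟩ := exists_mk a
      obtain ⟨t, rfl⟩ := exists_mk b
      exact mk_ident (s := s.sup (s.inf t)) (t := s) fun _ _ _ => sup_inf_self)
    (fun a b => by
      obtain ⟨s, rfl⟩ := exists_mk a
      obtain ⟨t, rfl⟩ := exists_mk b
      exact mk_ident (s := s.inf (s.sup t)) (t := s) fun _ _ _ => inf_sup_self)

theorem le_iff (a b : Pres R) : a ≤ b ↔ a ⊔ b = b := sup_eq_right.symm

instance instBdd : BoundedOrder (Pres R) where
  top := mk .one
  bot := mk .zero
  le_top a := by
    obtain ⟨s, rfl⟩ := exists_mk a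
    rw [le_iff]
    exact mk_ident (s := s.sup .one) (t := .one) fun _ _ _ => sup_top_eq _
  bot_le a := by
    obtain ⟨s, rfl⟩ := exists_mk a
    rw [le_iff]
    exact mk_ident (s := Term.zero.sup s) (t := s) fun _ _ _ => bot_sup_eq _

instance : OrthomodularLattice (Pres R) where
  compl_compl' a := by
    obtain ⟨s, rfl⟩ := exists_mk a
    exact mk_ident (s := s.compl.compl) (t := s) fun _ _ _ => OrthomodularLattice.cc _
  compl_antitone' a b := by
    obtain ⟨s, rfl⟩ := exists_mk a
    obtain ⟨t, rfl⟩ := exists_mk b
    intro h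
    rw [le_iff] at h
    have h1 : (mk s ⊔ mk t : Pres R)ᶜ = (mk s)ᶜ ⊓ (mk t)ᶜ :=
      mk_ident (s := (s.sup t).compl) (t := s.compl.inf t.compl)
        fun _ _ _ => OrthomodularLattice.c_sup _ _
    rw [h] at h1
    rw [h1]
    exact inf_le_left
  inf_compl' a := by
    obtain ⟨s, rfl⟩ := exists_mk a
    exact mk_ident (s := s.inf s.compl) (t := .zero) fun _ _ _ => OrthomodularLattice.inf_compl' _
  sup_compl' a := by
    obtain ⟨s, rfl⟩ := exists_mk a
    exact mk_ident (s := s.sup s.compl) (t := .one) fun _ _ _ => OrthomodularLattice.sup_compl' _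
  orthomodular' a b := by
    obtain ⟨s, rfl⟩ := exists_mk a
    obtain ⟨t, rfl⟩ := exists_mk b
    intro h
    rw [le_iff] at h
    have h1 : (mk s ⊔ mk t : Pres R) = mk s ⊔ ((mk s ⊔ mk t) ⊓ (mk s)ᶜ) :=
      mk_ident (s := s.sup t) (t := s.sup ((s.sup t).inf s.compl))
        fun _ _ _ => OrthomodularLattice.orthomodular' _ _ le_sup_left
    rw [h] at h1
    exact h1

/-- the tautological assignment -/
def gen (R : List (Term n × Term n)) (i : Fin n) : Pres R := mk (.var i)

theorem eval_gen (s : Term n) : s.eval (gen R) = mk s := by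
  induction s with
  | var i => rfl
  | zero => rfl
  | one => rfl
  | compl s ih => simp only [Term.eval, ih]; rfl
  | inf s t ih ih' => simp only [Term.eval, ih, ih']; rfl
  | sup s t ih ih' => simp only [Term.eval, ih, ih']; rfl

end Pres

/-- Soundness: equality in the presented lattice implies equality in all lattices
satisfying the relations. -/
theorem Eqv.eval_eq {L : Type} [OrthomodularLattice L] (v : Fin n → L)
    (hv : ∀ p ∈ R, p.1.eval v = p.2.eval v) {s t : Term n} (h : Eqv R s t) :
    s.eval v = t.eval v := by
  induction h with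
  | rel h => exact hv _ h
  | ident h => exact h L v
  | symm _ ih => exact ih.symm
  | trans _ _ ih ih' => exact ih.trans ih'
  | compl _ ih => simp only [Term.eval, ih]
  | inf _ _ ih ih' => simp only [Term.eval, ih, ih']
  | sup _ _ ih ih' => simp only [Term.eval, ih, ih']

/-- `Eqv R` is validity in all orthomodular lattices satisfying the relations. -/
theorem eqv_iff (s t : Term n) : Eqv R s t ↔ ∀ (L : Type) [OrthomodularLattice L] (v : Fin n → L),
    (∀ p ∈ R, p.1.eval v = p.2.eval v) → s.eval v = t.eval v := by
  constructor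
  · intro h L _ v hv
    exact Eqv.eval_eq R v hv h
  · intro h
    have := h (Pres R) (Pres.gen R) (fun p hp => by
      rw [Pres.eval_gen, Pres.eval_gen]
      exact Pres.mk_eq.mpr (.rel hp))
    rw [Pres.eval_gen, Pres.eval_gen] at this
    exact Pres.mk_eq.mp this

end Pool.Agent.Lib.MP_6fdd0d_al
end
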